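import Pool.Agent.X188.PI4

/-!
# A permutation-invariant qubit code on 59 qubits correcting 4 errors (helper188)

The formula `n_min(t) = 3t² + 3t + 1` for the least block length of a qubit permutation-invariant
code correcting `t` errors fails at `t = 4`.
-/

set_option autoImplicit false

open Finset Complex
open scoped ComplexConjugate

namespace Pool.Agent.Results.MP_901209_mp.Disproof

/-- The Pauli matrix `X`. -/
def pauliX : Matrix (Fin 2) (Fin 2) ℂ := !![0, 1; 1, 0]

/-- The Pauli matrix `Y`. -/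
noncomputable def pauliY : Matrix (Fin 2) (Fin 2) ℂ := !![0, -I; I, 0]

/-- The Pauli matrix `Z`. -/
def pauliZ : Matrix (Fin 2) (Fin 2) ℂ := !![1, 0; 0, -1]

/-- The single-qubit Pauli matrices: `0 ↦ I`, `1 ↦ X`, `2 ↦ Y`, `3 ↦ Z`. -/
noncomputable def sigma : Fin 4 → Matrix (Fin 2) (Fin 2) ℂ := ![1, pauliX, pauliY, pauliZ]

/-- The `n`-qubit Pauli operator `⊗ᵢ σ_{E i}` acting on a state `ψ : {0,1}ⁿ → ℂ`. -/
noncomputable def pauliOp {n : ℕ} (E : Fin n → Fin 4) (ψ : (Fin n → Fin 2) → ℂ) :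
    (Fin n → Fin 2) → ℂ :=
  fun x => ∑ y : Fin n → Fin 2, (∏ i, sigma (E i) (x i) (y i)) * ψ y

/-- The weight of a Pauli operator: the number of positions where it is not the identity. -/
def pweight {n : ℕ} (E : Fin n → Fin 4) : ℕ := (univ.filter fun i => E i ≠ 0).card

/-- The Hermitian inner product of two `n`-qubit states. -/
noncomputable def ip {n : ℕ} (φ ψ : (Fin n → Fin 2) → ℂ) : ℂ :=
  ∑ x : Fin n → Fin 2, conj (φ x) * ψ x

/-- The Dicke state `|Dⁿ_j⟩ = C(n,j)^{-1/2} ∑_{wt x = j} |x⟩`. -/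
noncomputable def dicke (n j : ℕ) : (Fin n → Fin 2) → ℂ :=
  fun x => if ∑ i, (x i : ℕ) = j then ((1 / Real.sqrt (n.choose j) : ℝ) : ℂ) else 0

/-- The state `∑_j α_j |Dⁿ_j⟩`. -/
noncomputable def word {n : ℕ} (α : Fin (n + 1) → ℂ) : (Fin n → Fin 2) → ℂ :=
  ∑ j : Fin (n + 1), α j • dicke n j

/-- `c 0` and `c 1` are the Dicke coefficients of the two codewords of a qubit
permutation-invariant code of block length `n` correcting `t` errors: the codewords are
orthonormal and the Knill-Laflamme conditions `⟨c_i|E†F|c_k⟩ = l δ_ik` hold for all Pauli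
operators `E`, `F` of weight at most `t` (with `l` depending on `E`, `F` only). -/
structure IsCode (n t : ℕ) (c : Fin 2 → Fin (n + 1) → ℂ) : Prop where
  orth : ∀ i k, ip (word (c i)) (word (c k)) = if i = k then 1 else 0
  kl : ∀ E F : Fin n → Fin 4, pweight E ≤ t → pweight F ≤ t → ∃ l : ℂ, ∀ i k,
    ip (pauliOp E (word (c i))) (pauliOp F (word (c k))) = if i = k then l else 0

/-- The least block length of a qubit permutation-invariant code correcting `t` errors. -/
noncomputable def nmin (t : ℕ) : ℕ := sInf {n : ℕ | ∃ c, IsCode n t c}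

theorem sigma_eq : sigma = X188.PI.sigma := by
  unfold sigma X188.PI.sigma
  rw [Matrix.one_fin_two]
  rfl

theorem pauliOp_eq {n : ℕ} (E : Fin n → Fin 4) (ψ : (Fin n → Fin 2) → ℂ) :
    pauliOp E ψ = X188.PI.pauliOp E ψ := by
  unfold pauliOp X188.PI.pauliOp
  rw [sigma_eq]

/-- There is a permutation-invariant qubit code of block length `59` correcting `4` errors; so
`n_min(4) ≤ 59 < 61 = 3·4² + 3·4 + 1`, and the conjectured formula is false. -/
theorem result :
    (∃ c : Fin 2 → Fin (59 + 1) → ℂ, IsCode 59 4 c) ∧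
    nmin 4 ≤ 59 ∧
    ¬ ∀ t : ℕ, 1 ≤ t → nmin t = 3 * t ^ 2 + 3 * t + 1 := by
  have h : ∃ c : Fin 2 → Fin (59 + 1) → ℂ, IsCode 59 4 c := by
    obtain ⟨c, hc⟩ := X188.PI.code59
    refine ⟨c, ⟨hc.orth, fun E F hE hF => ?_⟩⟩
    obtain ⟨l, hl⟩ := hc.kl E F hE hF
    refine ⟨l, fun i k => ?_⟩
    rw [pauliOp_eq, pauliOp_eq]
    exact hl i k
  have h2 : nmin 4 ≤ 59 := Nat.sInf_le h
  refine ⟨h, h2, fun hf => ?_⟩
  have h3 := hf 4 (by norm_num)
  rw [h3] at h2
  norm_num at h2

end Pool.Agent.Results.MP_901209_mp.Disproof
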